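import Pool.Agent.W263.BSD.OrderFinal

/-!
# The order of magnitude of the original Birch and Swinnerton-Dyer product

`E : y² = x³ + a x + b` is an elliptic curve over `ℚ`, `a, b ∈ ℤ`, `N_p` is the number of points modulo
`p` (with the point at infinity) and `P(x) = ∏_{p ≤ x, p ∤ 2Δ} N_p / p`.  `F` is the entire continuation
of the incomplete `L`-series and `r = ord_{s=1} F`.

The weak form `P(x) ≍ (log x)^r` of the original conjecture of Birch and Swinnerton-Dyer is shown to be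
equivalent to a one-sided doubling condition on `P` in which the rank does not occur:
`P(y) ≤ K P(x)` for all large `x` and `x ≤ y ≤ x²`.  If `P(x) ≍ (log x)^ρ` for some real `ρ`, then
`ρ = r`.  Moreover any one-sided bound `P(x) ≤ (log x)^K` implies the Riemann hypothesis for `F` and
that the logarithmic mean of `log P` is asymptotic to `r log log x`; the same for all Riesz means.

The Tauberian argument is in the modules `Pool.Agent.W263.BSD` of the starting files.
-/

set_option autoImplicit false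

namespace Pool.Agent.Results.MP_ad1693_nt.ExactOrder

open Filter Topology Classical

/-- `N_p`: the number of points of `y² = x³ + a x + b` modulo `p`, with the point at infinity. -/
noncomputable def numPoints (a b : ℤ) (p : ℕ) : ℕ :=
  Nat.card {q : ZMod p × ZMod p // q.2 ^ 2 = q.1 ^ 3 + (a : ZMod p) * q.1 + (b : ZMod p)} + 1

/-- `p` is a prime that does not divide `2 Δ`, where `Δ = -4 a³ - 27 b²`. -/
def Good (a b : ℤ) (p : ℕ) : Prop :=
  p.Prime ∧ ¬ ((p : ℤ) ∣ 2 * (-4 * a ^ 3 - 27 * b ^ 2))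

/-- The original Birch and Swinnerton-Dyer product `P(x) = ∏_{p ≤ x, p ∤ 2Δ} N_p / p`. -/
noncomputable def P (a b : ℤ) (x : ℝ) : ℝ :=
  ∏ p ∈ (Finset.range (⌊x⌋₊ + 1)).filter (Good a b), ((numPoints a b p : ℝ) / p)

/-- The Riesz mean of order `k` of `log P(t)`: `R_k(x) = ∑_{p ≤ x, p ∤ 2Δ} (1 - log p / log x)^k
log (N_p / p)`.  So `R_0(x) = log P(x)` and `R_1(x) = (log x)⁻¹ ∫_1^x log P(t) dt/t`. -/
noncomputable def R (a b : ℤ) (k : ℕ) (x : ℝ) : ℝ :=
  ∑ p ∈ (Finset.range (⌊x⌋₊ + 1)).filter (Good a b),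
    (1 - Real.log p / Real.log x) ^ k * Real.log ((numPoints a b p : ℝ) / p)

/-- `F` is an entire function which for `Re s > 3/2` is the incomplete `L`-series
`∏_{p ∤ 2Δ} (1 - a_p p^{-s} + p^{1-2s})⁻¹`, `a_p = p + 1 - N_p`, of `y² = x³ + a x + b`. -/
def IsLSeries (a b : ℤ) (F : ℂ → ℂ) : Prop :=
  Differentiable ℂ F ∧ ∀ s : ℂ, (3 : ℝ) / 2 < s.re →
    HasProd (fun p : ℕ => if Good a b p then
      (1 - ((p : ℂ) + 1 - (numPoints a b p : ℂ)) * (p : ℂ) ^ (-s) + (p : ℂ) ^ (1 - 2 * s))⁻¹ else 1)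
      (F s)

/-! ### Translation to the definitions of the imported files -/

variable {a b : ℤ}

theorem P_eq (x : ℝ) : P a b x = Pool.Agent.W263.BSD.bsdProduct a b x := by
  unfold P Pool.Agent.W263.BSD.bsdProduct numPoints Pool.Agent.W263.BSD.pointCount
  refine Finset.prod_congr rfl fun p _ => ?_
  push_cast
  rfl

theorem R_eq (k : ℕ) (x : ℝ) : R a b k x = Pool.Agent.W263.BSD.rieszMean a b k x := by
  unfold R Pool.Agent.W263.BSD.rieszMean numPoints Pool.Agent.W263.BSD.pointCount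
  refine Finset.sum_congr rfl fun p _ => ?_
  push_cast
  rfl

theorem numPoints_sub (p : ℕ) : (p : ℂ) + 1 - (numPoints a b p : ℂ) =
    (p : ℂ) - (Pool.Agent.W263.BSD.pointCount a b p : ℂ) := by
  unfold numPoints Pool.Agent.W263.BSD.pointCount
  push_cast
  ring

theorem isLSeries {F : ℂ → ℂ} (hF : IsLSeries a b F) :
    Pool.Agent.W263.BSD.IsLSeries a b F := by
  refine ⟨hF.1, fun s hs => ?_⟩
  have h := hF.2 s hs
  simp only [numPoints_sub] at h
  exact h

theorem P_pos (x : ℝ) : 0 < P a b x := by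
  rw [P_eq]
  exact Pool.Agent.W263.BSD.bsdProduct_pos x

/-- the exact order with an arbitrary exponent implies doubling -/
theorem doubling_of_order {ρ c C : ℝ} (hc : 0 < c)
    (h : ∀ᶠ x : ℝ in atTop, c * (Real.log x) ^ ρ ≤ P a b x ∧ P a b x ≤ C * (Real.log x) ^ ρ) :
    ∃ K : ℝ, ∀ᶠ x : ℝ in atTop, ∀ y, x ≤ y → y ≤ x ^ 2 → P a b y ≤ K * P a b x := by
  obtain ⟨X, hX⟩ := eventually_atTop.mp h
  refine ⟨|C| * 2 ^ |ρ| / c, ?_⟩
  filter_upwards [eventually_ge_atTop (max X (Real.exp 1))] with x hx y h1 h2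
  have hx1 : Real.exp 1 ≤ x := (le_max_right _ _).trans hx
  have hx0 : 0 < x := lt_of_lt_of_le (Real.exp_pos 1) hx1
  have hl : 1 ≤ Real.log x := by rwa [Real.le_log_iff_exp_le hx0]
  have hl0 : 0 < Real.log x := by linarith
  have e1 := (hX x ((le_max_left _ _).trans hx)).1
  have e2 := (hX y (((le_max_left _ _).trans hx).trans h1)).2
  have hxy : Real.log x ≤ Real.log y := Real.log_le_log hx0 h1
  have hly0 : 0 < Real.log y := by linarith
  have hly : Real.log y ≤ 2 * Real.log x := by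
    have := Real.log_le_log (by linarith) h2
    rwa [Real.log_pow] at this
  -- `(log y)^ρ ≤ 2^|ρ| (log x)^ρ`
  have e3 : (Real.log y) ^ ρ ≤ 2 ^ |ρ| * (Real.log x) ^ ρ := by
    rcases le_or_gt 0 ρ with h3 | h3
    · rw [abs_of_nonneg h3, ← Real.mul_rpow (by norm_num) hl0.le]
      exact Real.rpow_le_rpow hly0.le hly h3
    · have h4 : (Real.log y) ^ ρ ≤ (Real.log x) ^ ρ :=
        Real.rpow_le_rpow_of_nonpos hl0 hxy h3.le
      have h5 : (1 : ℝ) ≤ 2 ^ |ρ| := Real.one_le_rpow (by norm_num) (abs_nonneg _)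
      have h6 : 0 < (Real.log x) ^ ρ := Real.rpow_pos_of_pos hl0 _
      nlinarith
  have h6 : 0 < (Real.log x) ^ ρ := Real.rpow_pos_of_pos hl0 _
  have h7 : 0 < (Real.log y) ^ ρ := Real.rpow_pos_of_pos hly0 _
  calc P a b y ≤ C * Real.log y ^ ρ := e2
    _ ≤ |C| * (2 ^ |ρ| * (Real.log x) ^ ρ) :=
        mul_le_mul (le_abs_self C) e3 h7.le (abs_nonneg _)
    _ = |C| * 2 ^ |ρ| / c * (c * Real.log x ^ ρ) := by field_simp
    _ ≤ |C| * 2 ^ |ρ| / c * P a b x := by gcongr

/-- **The order of magnitude of the original Birch and Swinnerton-Dyer product.**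

`E : y² = x³ + a x + b`, `F` the entire continuation of its incomplete `L`-series.  The order `r` of `F`
at `1` is finite, and the following are equivalent:

1. `c (log x)^r ≤ P(x) ≤ C (log x)^r` for large `x`, with constants `c > 0` and `C`;
2. `c (log x)^ρ ≤ P(x) ≤ C (log x)^ρ` for large `x`, with some real `ρ` and constants `c > 0` and `C`;
3. there is a constant `K` with `P(y) ≤ K P(x)` for all large `x` and `x ≤ y ≤ x²`;
4. `F` has no real zeros `> 1`, and there is a constant `K` with `P(x) ≤ K P(y)` for all large `x` and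
   `x ≤ y ≤ x²`.

If they hold then `F` has no zeros in `Re s > 1` (so that the Riemann hypothesis holds), and `ρ = r` in 2.

Last clause: if `R_k(x) ≤ K log log x` for all large `x`, for some `k ≥ 0` and some constant `K` (for
`k = 0` this says `P(x) ≤ (log x)^K`), then the Riemann hypothesis holds and
`R_{k+1}(x) / log log x → r`. -/
theorem result (a b : ℤ) (_hΔ : 4 * a ^ 3 + 27 * b ^ 2 ≠ 0) (F : ℂ → ℂ) (hF : IsLSeries a b F) :
    ∃ r : ℕ, analyticOrderAt F 1 = r ∧ List.TFAE [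
      ∃ c C : ℝ, 0 < c ∧ ∀ᶠ x : ℝ in atTop,
        c * (Real.log x) ^ r ≤ P a b x ∧ P a b x ≤ C * (Real.log x) ^ r,
      ∃ ρ c C : ℝ, 0 < c ∧ ∀ᶠ x : ℝ in atTop,
        c * (Real.log x) ^ ρ ≤ P a b x ∧ P a b x ≤ C * (Real.log x) ^ ρ,
      ∃ K : ℝ, ∀ᶠ x : ℝ in atTop, ∀ y, x ≤ y → y ≤ x ^ 2 → P a b y ≤ K * P a b x,
      (∀ s : ℝ, 1 < s → F s ≠ 0) ∧
        ∃ K : ℝ, ∀ᶠ x : ℝ in atTop, ∀ y, x ≤ y → y ≤ x ^ 2 → P a b x ≤ K * P a b y] ∧
      (∀ ρ c C : ℝ, 0 < c → (∀ᶠ x : ℝ in atTop,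
        c * (Real.log x) ^ ρ ≤ P a b x ∧ P a b x ≤ C * (Real.log x) ^ ρ) →
        ρ = r ∧ ∀ s : ℂ, 1 < s.re → F s ≠ 0) ∧
      ∀ (k : ℕ) (K : ℝ), (∀ᶠ x : ℝ in atTop, R a b k x ≤ K * Real.log (Real.log x)) →
        (∀ s : ℂ, 1 < s.re → F s ≠ 0) ∧
        Tendsto (fun x : ℝ => R a b (k + 1) x / Real.log (Real.log x)) atTop (𝓝 r) := by
  have hF' := isLSeries hF
  obtain ⟨r, hr⟩ := Pool.Agent.W263.BSD.order_finite hF'
  have htf := Pool.Agent.W263.BSD.order_tfae hF' hr
  simp only [← P_eq] at htf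
  have h12 := htf.out 0 1
  have h13 := htf.out 0 2
  refine ⟨r, hr, ?_, ?_, ?_⟩
  · tfae_have 1 → 2 := by
      rintro ⟨c, C, hc, h⟩
      refine ⟨r, c, C, hc, ?_⟩
      simpa only [Real.rpow_natCast] using h
    tfae_have 2 → 3 := by
      rintro ⟨ρ, c, C, hc, h⟩
      exact doubling_of_order hc h
    tfae_have 3 → 1 := h12.mpr
    tfae_have 1 ↔ 4 := h13
    tfae_finish
  · intro ρ c C hc h
    obtain ⟨c', C', hc', h'⟩ := h12.mpr (doubling_of_order hc h)
    refine ⟨?_, fun s hs => Pool.Agent.W263.BSD.no_zeros_of_order hF' (C := C') (r := r) ?_ hs⟩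
    · -- compare the exponents
      have hl := Real.tendsto_log_atTop
      rcases lt_trichotomy ρ r with h1 | h1 | h1
      · exfalso
        -- `c' (log x)^r ≤ C (log x)^ρ`
        have h2 : Tendsto (fun x : ℝ => (Real.log x) ^ ((r : ℝ) - ρ)) atTop atTop :=
          (tendsto_rpow_atTop (by linarith)).comp hl
        obtain ⟨x, h3, h4, h5, h6⟩ := ((h.and (h'.and ((h2.eventually_gt_atTop (C / c')).and
          (eventually_gt_atTop 1)))).exists)
        have h7 : 0 < Real.log x := Real.log_pos h6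
        rw [Real.rpow_sub h7, Real.rpow_natCast, div_lt_div_iff₀ hc' (Real.rpow_pos_of_pos h7 _)] at h5
        have := h4.1.trans h3.2
        linarith
      · exact h1
      · exfalso
        have h2 : Tendsto (fun x : ℝ => (Real.log x) ^ (ρ - (r : ℝ))) atTop atTop :=
          (tendsto_rpow_atTop (by linarith)).comp hl
        obtain ⟨x, h3, h4, h5, h6⟩ := ((h.and (h'.and ((h2.eventually_gt_atTop (C' / c)).and
          (eventually_gt_atTop 1)))).exists)
        have h7 : 0 < Real.log x := Real.log_pos h6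
        rw [Real.rpow_sub h7, Real.rpow_natCast, div_lt_div_iff₀ hc (pow_pos h7 _)] at h5
        have := h3.1.trans h4.2
        linarith
    · simp only [← P_eq]
      exact h'.mono fun x hx => hx.2
  · intro k K h
    simp only [R_eq] at h ⊢
    exact ⟨fun s hs => Pool.Agent.W263.BSD.no_zeros_of_loglog hF' k h hs,
      Pool.Agent.W263.BSD.mean hF' hr k h⟩

end Pool.Agent.Results.MP_ad1693_nt.ExactOrder
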