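import Pool.Agent.TH375.KL.EulerLog

set_option autoImplicit false

/-!
# The products of Birch and Swinnerton-Dyer in the initial range, with and without a marked point

For a cubic polynomial `f ∈ ℤ[X]` with leading coefficient `1` and an odd prime `p` let `N_p(f)` be the number of points
over `𝔽_p` of `y² = f(x)`, including the point at infinity, and `P_f(z) = ∏_{2 < p ≤ z} N_p(f) / p`.

We consider the curves `y² = x³ + a x + b`, and the curves `y² = x³ + a x² + b x + s²` with the marked point `(0, s)`, with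
`a` and `b` in arbitrary intervals of length `N`.  For `z ≤ √N` it is shown that `log P_f(z)` has normal order
`(r + 1/2) log log z`, with `r = 0` for the first family and `r = 1` for the second one.
-/

namespace Pool.Agent.Results.MP_ad1693_nt.InitialRange

open Finset

/-- `N_p(f) = p + 1 + ∑_{x mod p} (f(x) / p)`, the number of points over `𝔽_p` of `y² = f(x)`, `p` odd, including the
point at infinity. -/
noncomputable def numPoints (p : ℕ) (f : Polynomial ℤ) : ℤ :=
  p + 1 + ∑ x ∈ range p, jacobiSym (f.eval (x : ℤ)) p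

/-- The odd primes up to `z`. -/
def oddPrimes (z : ℕ) : Finset ℕ := (range (z + 1)).filter fun p => p.Prime ∧ p ≠ 2

/-- `P_f(z) = ∏_{2 < p ≤ z} N_p(f) / p`. -/
noncomputable def eulerProduct (f : Polynomial ℤ) (z : ℕ) : ℝ :=
  ∏ p ∈ oddPrimes z, (numPoints p f : ℝ) / p

/-- `∑_{2 < p ≤ z} 1 / p`. -/
noncomputable def primeSum (z : ℕ) : ℝ := ∑ p ∈ oddPrimes z, 1 / (p : ℝ)

section
open TH375.KL

theorem sum_bound : ∃ Z : ℝ, 0 ≤ Z ∧ ∀ s : Finset ℕ, ∑ p ∈ s, 1 / ((p : ℝ) * Real.sqrt p) ≤ Z := by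
  have hs : Summable fun n : ℕ => 1 / (n : ℝ) ^ (3 / 2 : ℝ) :=
    Real.summable_one_div_nat_rpow.2 (by norm_num)
  refine ⟨∑' n : ℕ, 1 / (n : ℝ) ^ (3 / 2 : ℝ), tsum_nonneg fun n => by positivity, fun s => ?_⟩
  have h1 : ∀ n : ℕ, 1 / ((n : ℝ) * Real.sqrt n) = 1 / (n : ℝ) ^ (3 / 2 : ℝ) := by
    intro n
    rcases Nat.eq_zero_or_pos n with rfl | hn
    · rw [Nat.cast_zero, Real.zero_rpow (by norm_num), zero_mul]
    · have hn0 : (0 : ℝ) < n := by exact_mod_cast hn
      rw [show (3 / 2 : ℝ) = 1 + 1 / 2 by norm_num, Real.rpow_add hn0, Real.rpow_one,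
        Real.sqrt_eq_rpow]
  rw [sum_congr rfl fun n _ => h1 n]
  exact hs.sum_le_tsum s fun n _ => by positivity

/-- Weil's bound for cubic polynomials -/
theorem weil_cubic {p : ℕ} [hp : Fact p.Prime] (hp2 : p ≠ 2) (a b c : ZMod p) :
    |∑ u : ZMod p, ((quadraticChar (ZMod p) (u ^ 3 + a * u ^ 2 + b * u + c) : ℤ) : ℝ)| ≤
      2 * Real.sqrt p := by
  have hdeg : (Polynomial.X ^ 3 + Polynomial.C a * Polynomial.X ^ 2 +
      Polynomial.C b * Polynomial.X + Polynomial.C c : Polynomial (ZMod p)).natDegree = 3 := by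
    compute_degree!
  have hmon : (Polynomial.X ^ 3 + Polynomial.C a * Polynomial.X ^ 2 +
      Polynomial.C b * Polynomial.X + Polynomial.C c : Polynomial (ZMod p)).Monic := by
    monicity!
  have h3 : ringChar (ZMod p) ≠ 2 := by
    rw [ZMod.ringChar_zmod_n]
    exact hp2
  have h := Pool.Agent.H341R2.Sharp.weil_sharp_monic h3 hmon (by rw [hdeg]; norm_num) (by
    intro d g hg
    rw [hg] at hdeg
    by_cases hd : d = 0
    · rw [hd, map_zero, zero_mul, Polynomial.natDegree_zero] at hdeg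
      omega
    · rw [Polynomial.natDegree_C_mul hd, Polynomial.natDegree_pow] at hdeg
      omega)
  rw [hdeg, ZMod.card] at h
  simp only [Polynomial.eval_add, Polynomial.eval_mul, Polynomial.eval_pow, Polynomial.eval_X,
    Polynomial.eval_C] at h
  refine h.trans (le_of_eq ?_)
  norm_num

/-- the member -/
noncomputable def mem (P H : Polynomial ℤ) (c : Fin 2 → ℤ) : Polynomial ℤ :=
  P + H * (Polynomial.C (c 0) + Polynomial.C (c 1) * Polynomial.X)

theorem numPoints_eq {p : ℕ} [hp : Fact p.Prime] (P H : Polynomial ℤ) (c : Fin 2 → ℤ) :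
    (numPoints p (mem P H c) : ℝ) / p =
      1 + (1 + TT (fun u : ZMod p => Polynomial.aeval u P) (fun u => Polynomial.aeval u H)
        (fun i => ((c i : ℤ) : ZMod p))) / p := by
  have hp0 : (0 : ℝ) < p := by exact_mod_cast hp.out.pos
  have h1 : ((∑ x ∈ range p, jacobiSym ((mem P H c).eval (x : ℤ)) p : ℤ) : ℝ) =
      TT (fun u : ZMod p => Polynomial.aeval u P) (fun u => Polynomial.aeval u H)
        (fun i => ((c i : ℤ) : ZMod p)) := by
    unfold TT
    rw [← sum_range_zmod (f := fun u : ZMod p => ((quadraticChar (ZMod p)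
      (Polynomial.aeval u P + Polynomial.aeval u H *
        (((c 0 : ℤ) : ZMod p) + ((c 1 : ℤ) : ZMod p) * u)) : ℤ) : ℝ))]
    push_cast
    refine sum_congr rfl fun x _ => ?_
    rw [jac_eq]
    congr 2
    have h := Polynomial.eval_intCast_map (algebraMap ℤ (ZMod p)) (mem P H c) (x : ℤ)
    rw [Int.cast_natCast] at h
    have h2 : Polynomial.aeval (x : ZMod p) (mem P H c) =
        (((mem P H c).eval (x : ℤ) : ℤ) : ZMod p) := by
      rw [Polynomial.aeval_def, Polynomial.eval₂_eq_eval_map, h]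
      simp
    rw [← h2]
    unfold mem
    simp
  unfold numPoints
  push_cast at h1 ⊢
  rw [h1]
  field_simp
  ring

/-- the function whose sum over the primes is the logarithm of the product -/
noncomputable def lf (P H : Polynomial ℤ) (p : ℕ) (c : Fin 2 → ℤ) : ℝ :=
  if p.Prime ∧ p ≠ 2 then Real.log ((numPoints p (mem P H c) : ℝ) / p) else 0

theorem general (P H : Polynomial ℤ) (r S : ℝ) (hS : 0 ≤ S)
    (hH : ∀ (p : ℕ) (_ : Fact p.Prime),
      (univ.filter fun u : ZMod p => Polynomial.aeval u H = 0).card ≤ 1)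
    (hW : ∀ (p : ℕ) (_ : Fact p.Prime), p ≠ 2 → ∀ c : Fin 2 → ZMod p,
      |TT (fun u => Polynomial.aeval u P) (fun u => Polynomial.aeval u H) c| ≤ 2 * Real.sqrt p)
    (hB : ∀ (p : ℕ) (_ : Fact p.Prime), p ≠ 2 →
      |BB (fun u : ZMod p => Polynomial.aeval u P) (fun u => Polynomial.aeval u H) - r| ≤
        S / Real.sqrt p) :
    ∃ K : ℝ, 0 < K ∧ ∀ (A : Fin 2 → ℤ) (N z : ℕ), z ^ 2 ≤ N →
      ∑ c ∈ box A N, (Real.log (eulerProduct (mem P H c) z) - (r + 1 / 2) * primeSum z) ^ 2 ≤
        K * (N : ℝ) ^ 2 * (1 + primeSum z) := by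
  classical
  obtain ⟨C₁, hC₁, hdual⟩ := box_dual 2
  obtain ⟨Z, hZ0, hZ⟩ := sum_bound
  refine ⟨2 * (C₁ * 324) + 2 * ((1003 + S) * Z) ^ 2, by positivity, ?_⟩
  intro A N z hzN
  have hps0 : 0 ≤ primeSum z := sum_nonneg fun p _ => by positivity
  have hper : ∀ (p : ℕ) (c c' : Fin 2 → ℤ), p.Prime → (∀ i, (p : ℤ) ∣ c i - c' i) →
      lf P H p c = lf P H p c' := by
    intro p c c' hp h
    have : Fact p.Prime := ⟨hp⟩
    have h2 : (fun i => ((c i : ℤ) : ZMod p)) = fun i => ((c' i : ℤ) : ZMod p) := by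
      funext i
      rw [← sub_eq_zero, ← Int.cast_sub]
      exact (ZMod.intCast_zmod_eq_zero_iff_dvd _ _).2 (h _)
    unfold lf
    rw [numPoints_eq, numPoints_eq, h2]
  have hcube : ∀ (p : ℕ) (_ : Fact p.Prime), p ≠ 2 → ∀ l : ℕ,
      ∑ c ∈ cube 2 p, lf P H p (fun i => (c i : ℤ)) ^ l =
        ∑ c : Fin 2 → ZMod p, Real.log (1 + (1 + TT (fun u : ZMod p => Polynomial.aeval u P)
          (fun u => Polynomial.aeval u H) c) / p) ^ l := by
    intro p hp hp2 l
    rw [← sum_cube_zmod]
    refine sum_congr rfl fun c _ => ?_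
    unfold lf
    rw [if_pos ⟨hp.out, hp2⟩, numPoints_eq]
    simp only [Int.cast_natCast]
  have hcm : ∀ (p : ℕ), p.Prime → p ≠ 2 →
      |cm (lf P H) p - (r + 1 / 2) / p| ≤ (1003 + S) * (1 / (p * Real.sqrt p)) := by
    intro p hp hp2
    have hf : Fact p.Prime := ⟨hp⟩
    have hp0 : (0 : ℝ) < p := by exact_mod_cast hp.pos
    have hs0 : 0 < Real.sqrt p := Real.sqrt_pos.2 hp0
    have h1 := mean_est hp2 (fun u : ZMod p => Polynomial.aeval u P)
      (fun u => Polynomial.aeval u H) (hH p hf) (hW p hf hp2)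
    have h2 : cm (lf P H) p = (∑ c : Fin 2 → ZMod p, Real.log (1 + (1 +
        TT (fun u : ZMod p => Polynomial.aeval u P) (fun u => Polynomial.aeval u H) c) / p)) /
          (p : ℝ) ^ 2 := by
      have h3 := hcube p hf hp2 1
      simp only [pow_one] at h3
      unfold cm
      rw [h3]
    rw [h2]
    have h3 := hB p hf hp2
    set B := BB (fun u : ZMod p => Polynomial.aeval u P) (fun u => Polynomial.aeval u H)
    have h4 : |(B + 1 / 2) / p - (r + 1 / 2) / p| ≤ S / (p * Real.sqrt p) := by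
      have h5 : (B + 1 / 2) / p - (r + 1 / 2) / p = (B - r) / p := by ring
      rw [h5, abs_div, abs_of_pos hp0]
      calc |B - r| / p ≤ S / Real.sqrt p / p := div_le_div_of_nonneg_right h3 hp0.le
        _ = _ := by rw [div_div, mul_comm (Real.sqrt p)]
    refine (abs_sub_le _ ((B + 1 / 2) / p) _).trans ((add_le_add h1 h4).trans (le_of_eq ?_))
    ring
  have hvar : ∀ p : ℕ, p.Prime → p ≤ z →
      (∑ c ∈ cube 2 p, lf P H p (fun i => (c i : ℤ)) ^ 2) / (p : ℝ) ^ 2 ≤ 324 / p := by
    intro p hp _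
    have hf : Fact p.Prime := ⟨hp⟩
    by_cases hp2 : p = 2
    · have h1 : ∑ c ∈ cube 2 p, lf P H p (fun i => (c i : ℤ)) ^ 2 = 0 := by
        refine sum_eq_zero fun c _ => ?_
        unfold lf
        rw [if_neg fun h => h.2 hp2]
        norm_num
      rw [h1, zero_div]
      positivity
    · rw [hcube p hf hp2 2]
      exact mean_sq hp2 _ _ (hW p hf hp2)
  have hd := hdual (lf P H) hper (fun p => 324 / (p : ℝ)) (fun p => by positivity) A N z hzN hvar
  have hodd : oddPrimes z = (Prm z).filter (· ≠ 2) := by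
    unfold oddPrimes Prm
    rw [filter_filter]
  have hD : ∑ p ∈ Prm z, 324 / (p : ℝ) ≤ 324 * (1 + primeSum z) := by
    have h1 : ∀ p : ℕ, 324 / (p : ℝ) = 324 * (1 / p) := fun p => by ring
    rw [sum_congr rfl fun p _ => h1 p, ← mul_sum]
    refine mul_le_mul_of_nonneg_left ?_ (by norm_num)
    rw [← sum_filter_add_sum_filter_not (Prm z) (· ≠ 2), ← hodd]
    have h2 : ∑ p ∈ (Prm z).filter (fun p => ¬ p ≠ 2), 1 / (p : ℝ) ≤ 1 := by
      have h3 : (Prm z).filter (fun p => ¬ p ≠ 2) ⊆ {2} := by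
        intro p hp
        rw [mem_filter, not_not] at hp
        exact mem_singleton.2 hp.2
      refine (sum_le_sum_of_subset_of_nonneg h3 fun p _ _ => by positivity).trans ?_
      rw [sum_singleton]
      norm_num
    unfold primeSum
    linarith
  -- the comparison for one member
  have hone : ∀ c : Fin 2 → ℤ,
      (Real.log (eulerProduct (mem P H c) z) - (r + 1 / 2) * primeSum z) ^ 2 ≤
      2 * (∑ p ∈ Prm z, (lf P H p c - cm (lf P H) p)) ^ 2 + 2 * ((1003 + S) * Z) ^ 2 := by
    intro c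
    have h1 : Real.log (eulerProduct (mem P H c) z) = ∑ p ∈ oddPrimes z, lf P H p c := by
      unfold eulerProduct
      rw [Real.log_prod]
      · refine sum_congr rfl fun p hp => ?_
        unfold oddPrimes at hp
        rw [mem_filter] at hp
        unfold lf
        rw [if_pos hp.2]
      · intro p hp
        unfold oddPrimes at hp
        rw [mem_filter] at hp
        have hf : Fact p.Prime := ⟨hp.2.1⟩
        have hp3 : 3 ≤ p := by
          have h1 := hp.2.1.two_le
          have h2 := hp.2.2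
          omega
        have hpr : (3 : ℝ) ≤ p := by exact_mod_cast hp3
        have hq1 : 1.73 ≤ Real.sqrt p := by
          refine Real.le_sqrt_of_sq_le ?_
          norm_num
          linarith
        have h3 := (log_est hq1 (hW p hf hp.2.2 fun i => ((c i : ℤ) : ZMod p))).1
        rw [Real.sq_sqrt (by linarith : (0 : ℝ) ≤ p)] at h3
        rw [numPoints_eq]
        exact h3.ne'
    have h2 : ∑ p ∈ Prm z, (lf P H p c - cm (lf P H) p) =
        ∑ p ∈ oddPrimes z, (lf P H p c - cm (lf P H) p) := by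
      rw [hodd, sum_filter]
      refine sum_congr rfl fun p hp => ?_
      split_ifs with h3
      · rfl
      · have h4 : ∀ c : Fin 2 → ℤ, lf P H p c = 0 := by
          intro c
          unfold lf
          rw [if_neg fun h => h3 h.2]
        unfold cm
        rw [h4, sum_eq_zero fun c _ => h4 _]
        simp
    have h3 : |∑ p ∈ oddPrimes z, (cm (lf P H) p - (r + 1 / 2) / p)| ≤ (1003 + S) * Z := by
      refine (abs_sum_le_sum_abs _ _).trans ?_
      have h4 : ∀ p ∈ oddPrimes z, |cm (lf P H) p - (r + 1 / 2) / p| ≤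
          (1003 + S) * (1 / (p * Real.sqrt p)) := by
        intro p hp
        unfold oddPrimes at hp
        rw [mem_filter] at hp
        exact hcm p hp.2.1 hp.2.2
      refine (sum_le_sum h4).trans ?_
      rw [← mul_sum]
      exact mul_le_mul_of_nonneg_left (hZ _) (by positivity)
    have h4 : Real.log (eulerProduct (mem P H c) z) - (r + 1 / 2) * primeSum z =
        ∑ p ∈ Prm z, (lf P H p c - cm (lf P H) p) +
          ∑ p ∈ oddPrimes z, (cm (lf P H) p - (r + 1 / 2) / p) := by
      rw [h1, h2, ← sum_add_distrib]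
      unfold primeSum
      rw [mul_sum, ← sum_sub_distrib]
      exact sum_congr rfl fun p _ => by ring
    rw [h4]
    have h5 := pow_le_pow_left₀ (abs_nonneg _) h3 2
    rw [sq_abs] at h5
    set U := ∑ p ∈ Prm z, (lf P H p c - cm (lf P H) p)
    set W := ∑ p ∈ oddPrimes z, (cm (lf P H) p - (r + 1 / 2) / p)
    have h6 : (U + W) ^ 2 ≤ 2 * U ^ 2 + 2 * W ^ 2 := by nlinarith [sq_nonneg (U - W)]
    linarith
  refine (sum_le_sum fun c _ => hone c).trans ?_
  rw [sum_add_distrib, ← mul_sum, sum_const, card_box, nsmul_eq_mul]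
  push_cast
  have hN : (0 : ℝ) ≤ (N : ℝ) ^ 2 := by positivity
  have h1 : ∑ c ∈ box A N, (∑ p ∈ Prm z, (lf P H p c - cm (lf P H) p)) ^ 2 ≤
      C₁ * (N : ℝ) ^ 2 * (324 * (1 + primeSum z)) :=
    hd.trans (mul_le_mul_of_nonneg_left hD (by positivity))
  have h2 : (N : ℝ) ^ 2 * (2 * ((1003 + S) * Z) ^ 2) ≤
      2 * ((1003 + S) * Z) ^ 2 * (N : ℝ) ^ 2 * (1 + primeSum z) := by
    have h3 : 0 ≤ 2 * ((1003 + S) * Z) ^ 2 * (N : ℝ) ^ 2 * primeSum z := by positivity
    linarith
  calc 2 * ∑ c ∈ box A N, (∑ p ∈ Prm z, (lf P H p c - cm (lf P H) p)) ^ 2 +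
        (N : ℝ) ^ 2 * (2 * ((1003 + S) * Z) ^ 2)
      ≤ 2 * (C₁ * (N : ℝ) ^ 2 * (324 * (1 + primeSum z))) +
        2 * ((1003 + S) * Z) ^ 2 * (N : ℝ) ^ 2 * (1 + primeSum z) :=
        add_le_add (mul_le_mul_of_nonneg_left h1 (by norm_num)) h2
    _ = _ := by ring

theorem sum_box_two (A B : ℤ) (N : ℕ) (f : (Fin 2 → ℤ) → ℝ) :
    ∑ c ∈ box ![B, A] N, f c =
      ∑ a ∈ Ioc A (A + N), ∑ b ∈ Ioc B (B + N), f ![b, a] := by
  rw [← sum_product']
  refine sum_nbij' (fun c => (c 1, c 0)) (fun q => ![q.2, q.1]) ?_ ?_ ?_ ?_ ?_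
  · intro c hc
    unfold TH375.KL.box at hc
    rw [Fintype.mem_piFinset] at hc
    exact mem_product.2 ⟨hc 1, hc 0⟩
  · intro q hq
    rw [mem_product] at hq
    unfold TH375.KL.box
    rw [Fintype.mem_piFinset]
    intro i
    fin_cases i
    · exact hq.2
    · exact hq.1
  · intro c _
    funext i
    fin_cases i <;> rfl
  · intro q _
    rfl
  · intro c _
    congr 1
    funext i
    fin_cases i <;> rfl

end

/-- **The products of Birch and Swinnerton-Dyer in the initial range** -/
theorem result :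
    (∃ K : ℝ, 0 < K ∧ ∀ (A B : ℤ) (N z : ℕ), z ^ 2 ≤ N →
      ∑ a ∈ Ioc A (A + N), ∑ b ∈ Ioc B (B + N),
        (Real.log (eulerProduct (Polynomial.X ^ 3 + Polynomial.C a * Polynomial.X +
          Polynomial.C b) z) - 1 / 2 * primeSum z) ^ 2 ≤ K * (N : ℝ) ^ 2 * (1 + primeSum z)) ∧
    (∀ s : ℤ, s ≠ 0 → ∃ K : ℝ, 0 < K ∧ ∀ (A B : ℤ) (N z : ℕ), z ^ 2 ≤ N →
      ∑ a ∈ Ioc A (A + N), ∑ b ∈ Ioc B (B + N),
        (Real.log (eulerProduct (Polynomial.X ^ 3 + Polynomial.C a * Polynomial.X ^ 2 +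
          Polynomial.C b * Polynomial.X + Polynomial.C (s ^ 2)) z) - 3 / 2 * primeSum z) ^ 2 ≤
        K * (N : ℝ) ^ 2 * (1 + primeSum z)) := by
  classical
  constructor
  · obtain ⟨K, hK, h⟩ := general (Polynomial.X ^ 3) 1 0 0 le_rfl
      (fun p hp => by simp) (fun p hp hp2 c => by
        have h1 := weil_cubic hp2 0 (c 1) (c 0)
        unfold TH375.KL.TT
        refine le_trans (le_of_eq ?_) h1
        congr 1
        refine sum_congr rfl fun u _ => ?_
        congr 2
        simp
        ring) (fun p hp hp2 => by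
        unfold TH375.KL.BB
        simp)
    refine ⟨K, hK, ?_⟩
    intro A B N z hzN
    have h1 := h ![B, A] N z hzN
    rw [sum_box_two] at h1
    refine le_trans (le_of_eq ?_) h1
    refine sum_congr rfl fun a _ => sum_congr rfl fun b _ => ?_
    have h2 : mem (Polynomial.X ^ 3) 1 ![b, a] =
        Polynomial.X ^ 3 + Polynomial.C a * Polynomial.X + Polynomial.C b := by
      unfold mem
      simp
      ring
    rw [h2]
    ring
  · intro s hs
    obtain ⟨K, hK, h⟩ := general (Polynomial.X ^ 3 + Polynomial.C (s ^ 2)) Polynomial.X 1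
      (s.natAbs : ℝ) (Nat.cast_nonneg _)
      (fun p hp => by
        simp only [Polynomial.aeval_X]
        rw [filter_eq' univ (0 : ZMod p), if_pos (mem_univ _), card_singleton])
      (fun p hp hp2 c => by
        have h1 := weil_cubic hp2 (c 1) (c 0) ((s : ZMod p) ^ 2)
        unfold TH375.KL.TT
        refine le_trans (le_of_eq ?_) h1
        congr 1
        refine sum_congr rfl fun u _ => ?_
        congr 2
        simp
        ring) (fun p hp hp2 => by
        unfold TH375.KL.BB
        have hp0 : (0 : ℝ) < p := by exact_mod_cast hp.out.pos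
        have hs0 : 0 < Real.sqrt p := Real.sqrt_pos.2 hp0
        simp only [Polynomial.aeval_X]
        rw [sum_ite_eq' univ (0 : ZMod p), if_pos (mem_univ _)]
        simp only [map_add, map_pow, Polynomial.aeval_X, eq_intCast, map_intCast,
          Int.cast_pow, ne_eq, OfNat.ofNat_ne_zero, not_false_eq_true, zero_pow, zero_add]
        by_cases h1 : (s : ZMod p) = 0
        · have h2 : p ≤ s.natAbs := by
            refine Nat.le_of_dvd (Int.natAbs_pos.2 hs) ?_
            exact Int.natCast_dvd.1 ((ZMod.intCast_zmod_eq_zero_iff_dvd _ _).1 h1)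
          rw [h1]
          have h3 : ((quadraticChar (ZMod p) 0 : ℤ) : ℝ) ^ 2 - 1 = -1 := by simp
          rw [h3, abs_neg, abs_one, le_div_iff₀ hs0, one_mul]
          have h4 : Real.sqrt p ≤ p := by
            rw [Real.sqrt_le_left hp0.le]
            have : (1 : ℝ) ≤ p := by exact_mod_cast hp.out.one_le
            nlinarith
          exact h4.trans (by exact_mod_cast h2)
        · have h2 : ((quadraticChar (ZMod p) (s : ZMod p) : ℤ) : ℝ) ^ 2 = 1 := by
            exact_mod_cast quadraticChar_sq_one h1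
          rw [h2, sub_self, abs_zero]
          positivity)
    refine ⟨K, hK, ?_⟩
    intro A B N z hzN
    have h1 := h ![B, A] N z hzN
    rw [sum_box_two] at h1
    refine le_trans (le_of_eq ?_) h1
    refine sum_congr rfl fun a _ => sum_congr rfl fun b _ => ?_
    have h2 : mem (Polynomial.X ^ 3 + Polynomial.C (s ^ 2)) Polynomial.X ![b, a] =
        Polynomial.X ^ 3 + Polynomial.C a * Polynomial.X ^ 2 +
          Polynomial.C b * Polynomial.X + Polynomial.C (s ^ 2) := by
      unfold mem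
      simp
      ring
    rw [h2]
    ring

end Pool.Agent.Results.MP_ad1693_nt.InitialRange
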