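import Pool.Agent.TH270.NG.Law3
import Pool.Agent.TH270.MS.GrowthF

/-!
# Mestre-Nagao sums of a single curve in logarithmic mean

Let `E : y² = x³ + a x + b` be an elliptic curve over `ℚ`, `a, b ∈ ℤ`, `N_p` the number of affine points modulo
`p`, `a_p = p - N_p`, `F` the entire continuation of the incomplete `L`-series (without the Euler factors at
the primes dividing `2Δ`), `r` its order of vanishing at the centre `s = 1` and `f` the newform. Let

`S(x) = ∑_{p ≤ x, p ∤ 2Δ} a_p log p / p`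

be the Mestre-Nagao sum. Kim and Murty (2023): if `S(x)/log x` has a limit, then the Riemann hypothesis holds
for `E`, the limit is `1/2 - r`, and the original asymptotic of Birch and Swinnerton-Dyer is true for `E`;
conversely the Riemann hypothesis gives `x_n ∈ [2^n, 2^{n+1}]` with `S(x_n)/log x_n → 1/2 - r`. It is shown
that, read in logarithmic mean, the law of Mestre and Nagao is EQUIVALENT to the Riemann hypothesis: for every
curve (given its newform) and every real `c` the following are equivalent: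

* (1) `F` has no zeros with `Re s > 1` (by the functional equation: the Riemann hypothesis for `E`) and
  `c = 1/2 - r`;
* (2) `(log X)⁻¹ ∫_e^X |S(x)/log x - c| dx/x → 0`;
* (3) `(log X)⁻¹ ∫_e^X (S(x)/log x - c)² dx/x → 0`;
* (4) `S(X) = O(X^ε)` for all `ε > 0`, and `S(X)/log X → c` as `X → ∞` outside a measurable set of finite
  logarithmic measure (in particular: for `x` in `[2^n, 2^{n+1}]` outside a set of logarithmic measure `ε_n`,
  `∑ ε_n < ∞`).

Moreover the Riemann hypothesis for `E` holds if and only if `∫_e^X |S(x)/log x| dx/x ≤ B log X` for some `B` and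
all large `X`.

Proof. Let `A(x) = log P(x)`, `P(x) = ∏ (N_p + 1)/p` the product over the primes `p ≤ x`, `p ∤ 2Δ`, and
`T(x) = ∑ log ((N_p + 1)/p) log p`. The theorem of Rankin and Selberg in the form
`∑ (a_p² - p) log p / p² = o(log x)` gives `S(x) + T(x) = (1/2 + o(1)) log x`. Under the Riemann hypothesis
`A(x) = r log log x + κ + D(x)` with `D` small in logarithmic mean square (`MeanSquareLaw` of `MP_3283e1_nt`), and
partial summation `T(x) = A(x) log x - ∫_1^x A(t) dt/t` gives `T(x)/log x = r + D(x) + o(1)`. Conversely a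
bound for the means of `|S(x)|/log x` bounds `|A(x)|` by `|T(x)|/log x + O(log x)`; so the Laplace transform of
`A(e^u)` converges for `Re s > 0` and continues `log F(1 + s)/s`.
-/

set_option autoImplicit false

namespace Pool.Agent.Results.MP_ad1693_nt.MestreNagao

open Pool.Agent.W263.BSD Filter Topology Classical MeasureTheory Set
open CongruenceSubgroup UpperHalfPlane
open scoped MatrixGroups

/-- `S(x)`: the sum of `a_p log p / p`, `a_p = p - N_p`, over the primes `p ≤ x`, `p ∤ 2Δ`. -/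
noncomputable def nagaoSum (a b : ℤ) (x : ℝ) : ℝ :=
  ∑ p ∈ (Finset.range (⌊x⌋₊ + 1)).filter (GoodPrime a b),
    ((p : ℝ) - pointCount a b p) * Real.log p / p

/-- The `n`-th Fourier coefficient of `f`. -/
noncomputable def coef {N : ℕ} (f : CuspForm (Gamma0 N : Subgroup (GL (Fin 2) ℝ)) 2) (n : ℕ) : ℂ :=
  (qExpansion 1 f).coeff n

/-- `f ∈ S_2(Γ₀(N))` is the newform of the elliptic curve `E : y² = x³ + a x + b` of conductor `N`: the
Fourier coefficients `c(n)` of `f` are real with `c(1) = 1`, they satisfy the Hecke relations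
`c(mn) = c(m) c(n)` for coprime `m`, `n` and `c(p^(j+2)) = c(p) c(p^(j+1)) - p c(p^j)` (without the last
term if `p ∣ N`), `c(p) = a_p = p - N_p` (`N_p` affine points) for all primes `p ∤ 2Δ`, `|c(p)| ≤ 2 √p` for
all `p ∤ N` (Hasse) and `c(p) = 0, 1, -1` for `p ∣ N`. -/
structure IsNewformOf (a b : ℤ) (N : ℕ) (f : CuspForm (Gamma0 N : Subgroup (GL (Fin 2) ℝ)) 2) :
    Prop where
  one : coef f 1 = 1
  real : ∀ n, (coef f n).im = 0
  mul : ∀ m n : ℕ, Nat.Coprime m n → coef f (m * n) = coef f m * coef f n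
  pow : ∀ p j : ℕ, p.Prime → coef f (p ^ (j + 2)) = coef f p * coef f (p ^ (j + 1)) -
      (if p ∣ N then 0 else (p : ℂ) * coef f (p ^ j))
  points : ∀ p : ℕ, GoodPrime a b p → coef f p = (p : ℂ) - (pointCount a b p : ℂ)
  good : ∀ p : ℕ, p.Prime → ¬ p ∣ N → ‖coef f p‖ ≤ 2 * Real.sqrt p
  bad : ∀ p : ℕ, p.Prime → p ∣ N → coef f p = 0 ∨ coef f p = 1 ∨ coef f p = -1

/-- `F` has no zeros with `Re s > 1`. -/
def NoZeros (F : ℂ → ℂ) : Prop := ∀ s : ℂ, 1 < s.re → F s ≠ 0

theorem hecke {a b : ℤ} {N : ℕ} {f : CuspForm (Gamma0 N : Subgroup (GL (Fin 2) ℝ)) 2}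
    (hf : IsNewformOf a b N f) : Pool.Agent.TH941.Hecke f where
  one := hf.one
  real := hf.real
  mul := hf.mul
  pow := hf.pow
  good := hf.good
  bad := fun p hp h => by
    rcases hf.bad p hp h with h1 | h1 | h1
    · have h2 : ‖coef f p‖ ≤ 1 := by rw [h1]; simp
      exact h2
    · have h2 : ‖coef f p‖ ≤ 1 := by rw [h1]; simp
      exact h2
    · have h2 : ‖coef f p‖ ≤ 1 := by rw [h1]; simp
      exact h2

/-- **The Mestre-Nagao sums in logarithmic mean.** -/
theorem result (a b : ℤ) (hΔ : 4 * a ^ 3 + 27 * b ^ 2 ≠ 0) (F : ℂ → ℂ) (hF : IsLSeries a b F)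
    (N : ℕ) [NeZero N] (f : CuspForm (Gamma0 N : Subgroup (GL (Fin 2) ℝ)) 2)
    (hf : IsNewformOf a b N f) (r : ℕ) (hr : analyticOrderAt F 1 = r) :
    (NoZeros F ↔ ∃ B : ℝ, ∀ᶠ X : ℝ in atTop, ∫ x in Real.exp 1..X,
        |nagaoSum a b x / Real.log x| / x ≤ B * Real.log X) ∧
    ∀ c : ℝ, List.TFAE [
      NoZeros F ∧ c = 1 / 2 - r,
      Tendsto (fun X : ℝ => (∫ x in Real.exp 1..X, |nagaoSum a b x / Real.log x - c| / x) /
        Real.log X) atTop (𝓝 0),
      Tendsto (fun X : ℝ => (∫ x in Real.exp 1..X, (nagaoSum a b x / Real.log x - c) ^ 2 / x) /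
        Real.log X) atTop (𝓝 0),
      (∀ ε : ℝ, 0 < ε → ∃ B : ℝ, ∀ X : ℝ, 1 ≤ X → |nagaoSum a b X| ≤ B * X ^ ε) ∧
        ∃ S : Set ℝ, MeasurableSet S ∧ ∫⁻ x in S, ENNReal.ofReal (1 / x) < ⊤ ∧
          Tendsto (fun X : ℝ => nagaoSum a b X / Real.log X) (atTop ⊓ 𝓟 Sᶜ) (𝓝 c)] := by
  have hb : Pool.Agent.TH941.Belongs a b f := fun p hp => hf.points p hp
  have hrs : Tendsto (rsSum a b) atTop (𝓝 0) := (hecke hf).rsSum_tendsto hΔ hb
  obtain ⟨C₀, κ, hg⟩ := Pool.Agent.TH270.MS.EQ.growth_F hΔ hF (hecke hf) fun p hp => hf.points p hp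
  exact ⟨Pool.Agent.TH270.NG.law_bdd (hecke hf) hΔ hb hF hrs (by norm_num : (0 : ℝ) < 1 / 8) hg,
    fun c => Pool.Agent.TH270.NG.law (hecke hf) hΔ hb hF hrs (by norm_num : (0 : ℝ) < 1 / 8) hg c hr⟩

end Pool.Agent.Results.MP_ad1693_nt.MestreNagao
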