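import Pool.Agent.W263.BSD.Lead8
import Pool.Agent.TH941.Newform

/-!
# The original Birch and Swinnerton-Dyer asymptotic is one-sided slow variation

`E : y² = x³ + a x + b` is an elliptic curve over `ℚ`, `a, b ∈ ℤ`, `N_p` is the number of points modulo
`p` (with the point at infinity) and `P(x) = ∏_{p ≤ x, p ∤ 2Δ} N_p / p`.  `F` is the entire continuation
of the incomplete `L`-series `∏_{p ∤ 2Δ} (1 - a_p p^{-s} + p^{1-2s})⁻¹` and `r = ord_{s=1} F`; `f` is the
newform of `E`.

The original conjecture of Birch and Swinnerton-Dyer is `P(x) ~ C (log x)^r`.  Known criteria for it are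
statements `o(x)` on two-sided sums over the coefficients (Kuo and Murty, Conrad).  It is shown here to be
equivalent to a ONE-SIDED statement on the variation of the product `P` itself, in which neither the rank
nor a constant occurs:

for every `ε > 0` there is a `δ > 0` with `P(y) ≤ (1 + ε) P(x)` for all large `x` and `x ≤ y ≤ x^(1+δ)`.

If this holds, or if `P(x) ~ C (log x)^ρ` with arbitrary real `C ≠ 0` and `ρ`, then `ρ = r`, there are no
real zeros `> 1` and `P(x) ~ √2 e^{rγ} r! / F^{(r)}(1) · (log x)^r` (the constant is that of Goldfeld).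

Proof.  The Tauberian argument is in the modules `Pool.Agent.W263.BSD` of the starting files (it gives the
asymptotic formula for `P` times the correction `exp (∑_{√x < p ≤ x} (a_p² - 2p)/(2p²))`).  The modules
`Pool.Agent.TH941` show `∑_{√x < p ≤ x} (a_p² - p)/p² → 0`, from the theorem of Rankin and Selberg for `f`
in its weak form `(s-1) ∑ |c(n)|² n^{-s-1} → c > 0` for `s → 1+` and a Tauberian argument.
-/

set_option autoImplicit false

namespace Pool.Agent.Results.MP_ad1693_nt.SlowVariation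

open Filter Topology Classical CongruenceSubgroup UpperHalfPlane
open scoped MatrixGroups

/-- `N_p`: the number of points of `y² = x³ + a x + b` modulo `p`, with the point at infinity. -/
noncomputable def numPoints (a b : ℤ) (p : ℕ) : ℕ :=
  Nat.card {q : ZMod p × ZMod p // q.2 ^ 2 = q.1 ^ 3 + (a : ZMod p) * q.1 + (b : ZMod p)} + 1

/-- `p` is a prime that does not divide `2 Δ`, where `Δ = -4 a³ - 27 b²`. -/
def Good (a b : ℤ) (p : ℕ) : Prop :=
  p.Prime ∧ ¬ ((p : ℤ) ∣ 2 * (-4 * a ^ 3 - 27 * b ^ 2))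

/-- The original Birch and Swinnerton-Dyer product `P(x) = ∏_{p ≤ x, p ∤ 2Δ} N_p / p`. -/
noncomputable def P (a b : ℤ) (x : ℝ) : ℝ :=
  ∏ p ∈ (Finset.range (⌊x⌋₊ + 1)).filter (Good a b), ((numPoints a b p : ℝ) / p)

/-- `F` is an entire function which for `Re s > 3/2` is the incomplete `L`-series
`∏_{p ∤ 2Δ} (1 - a_p p^{-s} + p^{1-2s})⁻¹`, `a_p = p + 1 - N_p`, of `y² = x³ + a x + b`. -/
def IsLSeries (a b : ℤ) (F : ℂ → ℂ) : Prop :=
  Differentiable ℂ F ∧ ∀ s : ℂ, (3 : ℝ) / 2 < s.re →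
    HasProd (fun p : ℕ => if Good a b p then
      (1 - ((p : ℂ) + 1 - (numPoints a b p : ℂ)) * (p : ℂ) ^ (-s) + (p : ℂ) ^ (1 - 2 * s))⁻¹ else 1)
      (F s)

/-- The `n`-th Fourier coefficient of `f`. -/
noncomputable def coef {N : ℕ} (f : CuspForm (Gamma0 N : Subgroup (GL (Fin 2) ℝ)) 2) (n : ℕ) : ℂ :=
  (qExpansion 1 f).coeff n

/-- `f ∈ S_2(Γ₀(N))` is the newform of the elliptic curve `E : y² = x³ + a x + b` of conductor `N`: the
Fourier coefficients `c(n)` of `f` are real with `c(1) = 1`, they satisfy the Hecke relations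
`c(mn) = c(m) c(n)` for coprime `m`, `n` and `c(p^(j+2)) = c(p) c(p^(j+1)) - p c(p^j)` (without the last
term if `p ∣ N`), `c(p) = a_p = p + 1 - N_p` for all primes `p ∤ 2Δ`, `|c(p)| ≤ 2 √p` for all
`p ∤ N` (Hasse) and `c(p) = 0, 1, -1` for `p ∣ N`. -/
structure IsNewformOf (a b : ℤ) (N : ℕ) (f : CuspForm (Gamma0 N : Subgroup (GL (Fin 2) ℝ)) 2) :
    Prop where
  one : coef f 1 = 1
  real : ∀ n, (coef f n).im = 0
  mul : ∀ m n : ℕ, Nat.Coprime m n → coef f (m * n) = coef f m * coef f n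
  pow : ∀ p j : ℕ, p.Prime → coef f (p ^ (j + 2)) = coef f p * coef f (p ^ (j + 1)) -
      (if p ∣ N then 0 else (p : ℂ) * coef f (p ^ j))
  points : ∀ p : ℕ, Good a b p → coef f p = (p : ℂ) + 1 - (numPoints a b p : ℂ)
  good : ∀ p : ℕ, p.Prime → ¬ p ∣ N → ‖coef f p‖ ≤ 2 * Real.sqrt p
  bad : ∀ p : ℕ, p.Prime → p ∣ N → coef f p = 0 ∨ coef f p = 1 ∨ coef f p = -1

/-! ### Translation to the definitions of the imported files -/

variable {a b : ℤ}

theorem P_eq (x : ℝ) : P a b x = Pool.Agent.W263.BSD.bsdProduct a b x := by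
  unfold P Pool.Agent.W263.BSD.bsdProduct numPoints Pool.Agent.W263.BSD.pointCount
  refine Finset.prod_congr rfl fun p _ => ?_
  push_cast
  rfl

theorem numPoints_sub (p : ℕ) : (p : ℂ) + 1 - (numPoints a b p : ℂ) =
    (p : ℂ) - (Pool.Agent.W263.BSD.pointCount a b p : ℂ) := by
  unfold numPoints Pool.Agent.W263.BSD.pointCount
  push_cast
  ring

theorem isLSeries {F : ℂ → ℂ} (hF : IsLSeries a b F) :
    Pool.Agent.W263.BSD.IsLSeries a b F := by
  refine ⟨hF.1, fun s hs => ?_⟩
  have h := hF.2 s hs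
  simp only [numPoints_sub] at h
  exact h

theorem hecke {N : ℕ} {f : CuspForm (Gamma0 N : Subgroup (GL (Fin 2) ℝ)) 2}
    (hf : IsNewformOf a b N f) : Pool.Agent.TH941.Hecke f where
  one := hf.one
  real := hf.real
  mul := hf.mul
  pow := hf.pow
  good := hf.good
  bad := fun p hp h => by
    rcases hf.bad p hp h with h1 | h1 | h1
    · have h2 : ‖coef f p‖ ≤ 1 := by rw [h1]; simp
      exact h2
    · have h2 : ‖coef f p‖ ≤ 1 := by rw [h1]; simp
      exact h2
    · have h2 : ‖coef f p‖ ≤ 1 := by rw [h1]; simp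
      exact h2

theorem rs {N : ℕ} [NeZero N] {f : CuspForm (Gamma0 N : Subgroup (GL (Fin 2) ℝ)) 2}
    (hΔ : 4 * a ^ 3 + 27 * b ^ 2 ≠ 0) (hf : IsNewformOf a b N f) :
    Tendsto (Pool.Agent.W263.BSD.rsSum a b) atTop (𝓝 0) :=
  (hecke hf).rsSum_tendsto hΔ fun p hp => (hf.points p hp).trans (numPoints_sub p)

/-- the exact order implies that the leading coefficient is a positive real number -/
theorem coeff_real {F : ℂ → ℂ} (hF : Pool.Agent.W263.BSD.IsLSeries a b F) {r : ℕ}
    (hr : analyticOrderAt F 1 = r) {K : ℝ}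
    (h : ∀ᶠ x : ℝ in atTop, Pool.Agent.W263.BSD.bsdProduct a b x ≤ K * (Real.log x) ^ r) :
    iteratedDeriv r F 1 = (‖iteratedDeriv r F 1‖ : ℂ) := by
  refine Pool.Agent.W263.BSD.coeff_real hF hr ?_
  refine (Pool.Agent.W263.BSD.data 0 hF).conv_of_upper (Pool.Agent.W263.BSD.hloc a b 0) ?_
  intro ε hε
  obtain ⟨B, hB0, hB⟩ := Pool.Agent.W263.BSD.log_approx a b
  -- `P(x) ≤ K (log x)^r` implies `log P (e^u) ≤ log K + r log u`
  have h1 := Real.tendsto_exp_atTop.eventually h
  have h2 := (isLittleO_pow_exp_pos_mul_atTop 1 hε).bound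
    (show (0 : ℝ) < 1 / (|Real.log K| + r + B + 1) by positivity)
  filter_upwards [h1, h2, eventually_ge_atTop 1] with u h3 h4 hu
  have hu0 : 0 < u := by linarith
  rw [Real.log_exp] at h3
  have hK : 0 < K := by
    by_contra hneg
    push Not at hneg
    have h5 := mul_nonpos_of_nonpos_of_nonneg hneg (pow_pos hu0 r).le
    linarith [Pool.Agent.W263.BSD.bsdProduct_pos (a := a) (b := b) (Real.exp u)]
  have h5 := Real.log_le_log (Pool.Agent.W263.BSD.bsdProduct_pos _) h3
  rw [Real.log_mul hK.ne' (pow_pos hu0 r).ne', Real.log_pow] at h5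
  have h6 := (abs_le.mp (hB u hu0)).1
  have h7 : Real.log u ≤ u := (Real.log_le_sub_one_of_pos hu0).trans (by linarith)
  have h8 := le_abs_self (Real.log K)
  rw [pow_one, Real.norm_of_nonneg hu0.le, Real.norm_of_nonneg (Real.exp_pos _).le,
    div_mul_eq_mul_div, one_mul, le_div_iff₀ (by positivity)] at h4
  have h9 : (r : ℝ) * Real.log u ≤ r * u := mul_le_mul_of_nonneg_left h7 (by positivity)
  have h10 : |Real.log K| + B ≤ (|Real.log K| + B) * u := le_mul_of_one_le_right (by positivity) hu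
  nlinarith [abs_nonneg (Real.log K)]

theorem P_pos (x : ℝ) : 0 < P a b x := by
  rw [P_eq]
  exact Pool.Agent.W263.BSD.bsdProduct_pos x

/-- an asymptotic formula with an arbitrary exponent implies slow variation -/
theorem slow_of_shape {ρ C : ℝ} (hC : C ≠ 0)
    (h : Tendsto (fun x : ℝ => P a b x / (Real.log x) ^ ρ) atTop (𝓝 C)) {ε : ℝ} (hε : 0 < ε) :
    ∃ δ : ℝ, 0 < δ ∧ ∀ᶠ x : ℝ in atTop, ∀ y, x ≤ y → y ≤ x ^ (1 + δ) →
      P a b y ≤ (1 + ε) * P a b x := by
  have hC0 : 0 < C := by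
    refine lt_of_le_of_ne (ge_of_tendsto h ?_) (Ne.symm hC)
    filter_upwards [eventually_gt_atTop 1] with x hx
    exact (div_pos (P_pos x) (Real.rpow_pos_of_pos (Real.log_pos hx) _)).le
  set η : ℝ := Real.log (1 + ε) / 4 with hη
  have hη0 : 0 < η := by
    have := Real.log_pos (show 1 < 1 + ε by linarith)
    positivity
  have h1 := h.log hC0.ne'
  have h2 := Metric.tendsto_atTop.mp h1 η hη0
  obtain ⟨X, hX⟩ := h2
  refine ⟨η / (|ρ| + 1), by positivity, ?_⟩
  filter_upwards [eventually_ge_atTop (max X 3)] with x hx y hxy hyx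
  have hx3 : 3 ≤ x := (le_max_right _ _).trans hx
  have hxX : X ≤ x := (le_max_left _ _).trans hx
  have hx0 : 0 < x := by linarith
  have hy0 : 0 < y := by linarith
  have hlx : 0 < Real.log x := Real.log_pos (by linarith)
  have hly : 0 < Real.log y := Real.log_pos (by linarith)
  have e1 := hX x hxX
  have e2 := hX y (hxX.trans hxy)
  rw [Real.dist_eq, Real.log_div (P_pos _).ne' (Real.rpow_pos_of_pos hlx _).ne',
    Real.log_rpow hlx] at e1
  rw [Real.dist_eq, Real.log_div (P_pos _).ne' (Real.rpow_pos_of_pos hly _).ne',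
    Real.log_rpow hly] at e2
  have e3 := (abs_lt.mp e1).1
  have e4 := (abs_lt.mp e2).2
  -- `0 ≤ log log y - log log x ≤ δ`
  have e5 : Real.log (Real.log x) ≤ Real.log (Real.log y) :=
    Real.log_le_log hlx (Real.log_le_log hx0 hxy)
  have e6 : Real.log (Real.log y) ≤ Real.log (Real.log x) + η / (|ρ| + 1) := by
    have h3 : Real.log y ≤ (1 + η / (|ρ| + 1)) * Real.log x := by
      have := Real.log_le_log hy0 hyx
      rwa [Real.log_rpow hx0] at this
    have h4 := Real.log_le_log hly h3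
    rw [Real.log_mul (by positivity) hlx.ne'] at h4
    have h5 := Real.log_le_sub_one_of_pos (show 0 < 1 + η / (|ρ| + 1) by positivity)
    linarith
  have e7 : ρ * Real.log (Real.log y) - ρ * Real.log (Real.log x) ≤ η := by
    have h3 : ρ * (Real.log (Real.log y) - Real.log (Real.log x)) ≤ |ρ| * (η / (|ρ| + 1)) :=
      mul_le_mul (le_abs_self ρ) (by linarith) (by linarith) (abs_nonneg _)
    have h4 : |ρ| * (η / (|ρ| + 1)) ≤ η := by
      rw [mul_div_assoc', div_le_iff₀ (by positivity)]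
      nlinarith [abs_nonneg ρ]
    linarith
  have h1ε : 0 < 1 + ε := by linarith
  rw [← Real.log_le_log_iff (P_pos _) (mul_pos h1ε (P_pos _)), Real.log_mul h1ε.ne' (P_pos _).ne']
  have h7 : Real.log (1 + ε) = 4 * η := by rw [hη]; ring
  rw [h7]
  linarith

/-- **The original Birch and Swinnerton-Dyer asymptotic is equivalent to one-sided slow variation.**

`E : y² = x³ + a x + b`, `F` the entire continuation of its incomplete `L`-series, `f` its newform.  The
order `r` of `F` at `1` is finite, and the following are equivalent: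

1. the original conjecture of Birch and Swinnerton-Dyer: `P(x) / (log x)^r → C` for some `C ≠ 0`;
2. `P(x) / (log x)^r → √2 e^{rγ} r! / F^{(r)}(1)`;
3. `P(x) / (log x)^ρ → C` for some real `ρ` and some `C ≠ 0`;
4. for every `ε > 0` there is a `δ > 0` with `P(y) ≤ (1 + ε) P(x)` for all large `x` and
   `x ≤ y ≤ x^(1+δ)`;
5. `F` has no real zeros `> 1`, and for every `ε > 0` there is a `δ > 0` with
   `P(x) ≤ (1 + ε) P(y)` for all large `x` and `x ≤ y ≤ x^(1+δ)`. -/
theorem result (a b : ℤ) (hΔ : 4 * a ^ 3 + 27 * b ^ 2 ≠ 0) (F : ℂ → ℂ) (hF : IsLSeries a b F)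
    (N : ℕ) [NeZero N] (f : CuspForm (Gamma0 N : Subgroup (GL (Fin 2) ℝ)) 2)
    (hf : IsNewformOf a b N f) :
    ∃ r : ℕ, analyticOrderAt F 1 = r ∧ List.TFAE [
      ∃ C : ℝ, C ≠ 0 ∧ Tendsto (fun x : ℝ => P a b x / (Real.log x) ^ r) atTop (𝓝 C),
      Tendsto (fun x : ℝ => ((P a b x / (Real.log x) ^ r : ℝ) : ℂ)) atTop
        (𝓝 ((√2 * Real.exp (r * Real.eulerMascheroniConstant) * (r.factorial : ℝ) : ℝ) /
          iteratedDeriv r F 1)),
      ∃ ρ C : ℝ, C ≠ 0 ∧ Tendsto (fun x : ℝ => P a b x / (Real.log x) ^ ρ) atTop (𝓝 C),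
      ∀ ε : ℝ, 0 < ε → ∃ δ : ℝ, 0 < δ ∧ ∀ᶠ x : ℝ in atTop, ∀ y, x ≤ y → y ≤ x ^ (1 + δ) →
        P a b y ≤ (1 + ε) * P a b x,
      (∀ s : ℝ, 1 < s → F s ≠ 0) ∧ ∀ ε : ℝ, 0 < ε → ∃ δ : ℝ, 0 < δ ∧ ∀ᶠ x : ℝ in atTop,
        ∀ y, x ≤ y → y ≤ x ^ (1 + δ) → P a b x ≤ (1 + ε) * P a b y] := by
  have hF' := isLSeries hF
  obtain ⟨r, hr⟩ := Pool.Agent.W263.BSD.order_finite hF'
  refine ⟨r, hr, ?_⟩
  have hrs := rs hΔ hf
  have htf := Pool.Agent.W263.BSD.lead_tfae hF' hr
  obtain ⟨hpos, _⟩ := Pool.Agent.W263.BSD.lead_limit hF'.1 hr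
  have h13 := htf.out 2 0
  have h14 := htf.out 3 0
  -- the asymptotic formula for the corrected product gives everything
  have key : Tendsto (fun x : ℝ => Pool.Agent.W263.BSD.bsdStar a b x / (Real.log x) ^ r) atTop
      (𝓝 (Real.exp (r * Real.eulerMascheroniConstant) / Pool.Agent.W263.BSD.leadAbs F r)) →
      Tendsto (fun x : ℝ => ((P a b x / (Real.log x) ^ r : ℝ) : ℂ)) atTop
        (𝓝 ((√2 * Real.exp (r * Real.eulerMascheroniConstant) * (r.factorial : ℝ) : ℝ) /
          iteratedDeriv r F 1)) := by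
    intro h
    have h1 := (Pool.Agent.W263.BSD.product_iff_star hΔ hrs r _).mpr h
    obtain ⟨K, hK⟩ : ∃ K : ℝ, ∀ᶠ x : ℝ in atTop,
        Pool.Agent.W263.BSD.bsdProduct a b x ≤ K * (Real.log x) ^ r :=
      Pool.Agent.W263.BSD.order_of_tendsto (by positivity) h
    have h2 := coeff_real hF' hr hK
    have h3 : ((√2 * Real.exp (r * Real.eulerMascheroniConstant) * (r.factorial : ℝ) : ℝ) : ℂ) /
        iteratedDeriv r F 1 =
        ((√2 * (Real.exp (r * Real.eulerMascheroniConstant) /
          Pool.Agent.W263.BSD.leadAbs F r) : ℝ) : ℂ) := by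
      rw [h2]
      unfold Pool.Agent.W263.BSD.leadAbs
      push_cast
      have hfac : (r.factorial : ℂ) ≠ 0 := by exact_mod_cast r.factorial_ne_zero
      field_simp
    rw [h3]
    refine (Complex.continuous_ofReal.tendsto _).comp ?_
    simpa only [P_eq] using h1
  tfae_have 2 → 1 := by
    intro h
    have hne : iteratedDeriv r F 1 ≠ 0 := by
      intro h0
      unfold Pool.Agent.W263.BSD.leadAbs at hpos
      rw [h0] at hpos
      simp at hpos
    set L : ℂ := ((√2 * Real.exp (r * Real.eulerMascheroniConstant) * (r.factorial : ℝ) : ℝ) /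
          iteratedDeriv r F 1) with hL
    have hL0 : L ≠ 0 := by
      rw [hL]
      refine div_ne_zero ?_ hne
      have : 0 < √2 * Real.exp (r * Real.eulerMascheroniConstant) * (r.factorial : ℝ) := by
        have := r.factorial_pos
        positivity
      exact_mod_cast this.ne'
    have h1 : Tendsto (fun x : ℝ => P a b x / (Real.log x) ^ r) atTop (𝓝 L.re) := by
      have := (Complex.continuous_re.tendsto L).comp h
      refine this.congr fun x => ?_
      simp only [Function.comp_apply, Complex.ofReal_re]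
    have h2 : Tendsto (fun _ : ℝ => (0 : ℝ)) atTop (𝓝 L.im) := by
      have := (Complex.continuous_im.tendsto L).comp h
      refine this.congr fun x => ?_
      simp only [Function.comp_apply, Complex.ofReal_im]
    refine ⟨L.re, fun h0 => hL0 ?_, h1⟩
    apply Complex.ext
    · rw [h0, Complex.zero_re]
    · rw [Complex.zero_im]
      exact tendsto_nhds_unique h2 tendsto_const_nhds
  tfae_have 1 → 3 := by
    rintro ⟨C, hC, h⟩
    refine ⟨r, C, hC, ?_⟩
    simpa only [Real.rpow_natCast] using h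
  tfae_have 3 → 4 := by
    rintro ⟨ρ, C, hC, h⟩ ε hε
    exact slow_of_shape hC h hε
  tfae_have 4 → 2 := by
    intro h
    refine key (h13.mp ?_)
    simpa only [P_eq] using h
  tfae_have 5 → 2 := by
    intro h
    refine key (h14.mp ?_)
    simpa only [P_eq] using h
  tfae_have 4 → 5 := by
    intro h
    have h1 := h14.mpr (h13.mp (by simpa only [P_eq] using h))
    simpa only [P_eq] using h1
  tfae_finish

end Pool.Agent.Results.MP_ad1693_nt.SlowVariation
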